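import Pool.Agent.H20Sw.Mask
import Pool.Agent.H2Swap.Gain
import Pool.Agent.H23Sw.Cycle
import Pool.Agent.H47PS.Final

/-!
# Matroids whose determinants lie in a group with bounded fundamental elements
-/

set_option autoImplicit false

namespace Pool.Agent.H20Sw

open Finset Pool.Agent.H47PS

variable {r : ℕ}

/-- The constant. -/
noncomputable def cst (c : ℝ) (r : ℕ) : ℝ := ∏ k ∈ range (r + 1), (c ^ k * (k.factorial : ℝ))

/-- The bound for the matrix `A` of coordinates. -/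
theorem ratioC (G : Set ℂ) (c : ℝ) (hc1 : 1 ≤ c) (h1 : (1 : ℂ) ∈ G)
    (hmul : ∀ p ∈ G, ∀ q ∈ G, p * q ∈ G) (hinv : ∀ p ∈ G, p⁻¹ ∈ G) (hneg : ∀ p ∈ G, -p ∈ G)
    (hC : ∀ p ∈ G, ∀ q ∈ G, (p + q = 0 ∨ p + q ∈ G) → ‖p‖ ≤ c * ‖q‖)
    (A : Matrix (Fin r) (Fin r) ℂ)
    (H : ∀ (k : ℕ) (f g : Fin k → Fin r), Function.Injective f → Function.Injective g →
      (A.submatrix f g).det = 0 ∨ (A.submatrix f g).det ∈ G)
    (hA : A.det ≠ 0) (T : Finset (Fin r ⊕ Fin r)) :
    ‖(H68Rg.mat (vecs A) T).det‖ ≤ cst c r * ‖A.det‖ := by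
  obtain ⟨τ, hτ, hτ2⟩ := H2Swap.det_lower G c hc1 hmul hinv hneg hC r A H hA
  let v : AbsoluteValue ℂ ℝ := NormedField.toAbsoluteValue ℂ
  have hv : ∀ z, v z = ‖z‖ := fun _ => rfl
  have h2 := leib A v (c ^ r * ∏ i, ‖A i (τ i)‖) (by positivity) (fun σ hσ =>
    H23Sw.match_ratio v G c hc1 h1 hmul hneg hC A H σ τ hσ hτ) T
  rw [hv] at h2
  unfold cst
  rw [Finset.prod_range_succ]
  have hP : (0 : ℝ) ≤ r.factorial * c ^ r := by positivity
  calc ‖(H68Rg.mat (vecs A) T).det‖ ≤ r.factorial * (c ^ r * ∏ i, ‖A i (τ i)‖) := h2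
    _ = r.factorial * c ^ r * ∏ i, ‖A i (τ i)‖ := by ring
    _ ≤ r.factorial * c ^ r * ((∏ k ∈ range r, (c ^ k * (k.factorial : ℝ))) * ‖A.det‖) :=
        mul_le_mul_of_nonneg_left hτ2 hP
    _ = _ := by ring

/-- Two tuples which split two bases come from a permutation. -/
theorem exists_perm_of_splits {α : Type*} {b b' x y : Fin r → α}
    (h : Splits (Set.range b) (Set.range b') x y) :
    ∃ π : Equiv.Perm (Fin r ⊕ Fin r), (∀ i, Sum.elim b b' (π (Sum.inl i)) = x i) ∧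
      ∀ i, Sum.elim b b' (π (Sum.inr i)) = y i := by
  classical
  obtain ⟨hx, hy, hu, hi⟩ := h
  have hxB : ∀ i, (∃ j, b j = x i) ∨ ∃ j, b' j = x i := by
    intro i
    have : x i ∈ Set.range b ∪ Set.range b' := hu ▸ Or.inl ⟨i, rfl⟩
    exact this
  have hyB : ∀ i, (∃ j, b' j = y i) ∨ ∃ j, b j = y i := by
    intro i
    have : y i ∈ Set.range b ∪ Set.range b' := hu ▸ Or.inr ⟨i, rfl⟩
    exact this.symm
  let f : Fin r ⊕ Fin r → Fin r ⊕ Fin r := Sum.elim
    (fun i => if h : ∃ j, b j = x i then Sum.inl h.choose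
      else Sum.inr ((hxB i).resolve_left h).choose)
    (fun i => if h : ∃ j, b' j = y i then Sum.inr h.choose
      else Sum.inl ((hyB i).resolve_left h).choose)
  have f1 : ∀ i, Sum.elim b b' (f (Sum.inl i)) = x i := by
    intro i
    by_cases h : ∃ j, b j = x i
    · simp only [f, Sum.elim_inl]
      rw [dif_pos h]
      exact h.choose_spec
    · simp only [f, Sum.elim_inl]
      rw [dif_neg h]
      exact ((hxB i).resolve_left h).choose_spec
  have f2 : ∀ i, Sum.elim b b' (f (Sum.inr i)) = y i := by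
    intro i
    by_cases h : ∃ j, b' j = y i
    · simp only [f, Sum.elim_inr]
      rw [dif_pos h]
      exact h.choose_spec
    · simp only [f, Sum.elim_inr]
      rw [dif_neg h]
      exact ((hyB i).resolve_left h).choose_spec
  have hne : ∀ i j, f (Sum.inl i) ≠ f (Sum.inr j) := by
    intro i j hij
    have e : x i = y j := by rw [← f1, ← f2, hij]
    have hcom : x i ∈ Set.range b ∩ Set.range b' := by
      rw [← hi]
      exact ⟨⟨i, rfl⟩, ⟨j, e.symm⟩⟩
    have h1 : ∃ k, b k = x i := hcom.1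
    have h2 : ∃ k, b' k = y j := by rw [← e]; exact hcom.2
    simp only [f, Sum.elim_inl, Sum.elim_inr] at hij
    rw [dif_pos h1, dif_pos h2] at hij
    exact absurd hij (by simp)
  have hinj : Function.Injective f := by
    intro a c hac
    rcases a with i | i <;> rcases c with j | j
    · exact congrArg Sum.inl (hx (by rw [← f1, ← f1, hac]))
    · exact absurd hac (hne i j)
    · exact absurd hac.symm (hne j i)
    · exact congrArg Sum.inr (hy (by rw [← f2, ← f2, hac]))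
  exact ⟨Equiv.ofBijective f (Finite.injective_iff_bijective.1 hinj), f1, f2⟩

/-- Change of the basis. -/
theorem mat_mul (E : Fin r ⊕ Fin r → Fin r → ℂ) (P : Matrix (Fin r) (Fin r) ℂ)
    (T : Finset (Fin r ⊕ Fin r)) :
    (H68Rg.mat (fun a => Matrix.vecMul (E a) P) T).det =
      P.det * P.det * (H68Rg.mat E T).det := by
  have h : H68Rg.mat (fun a => Matrix.vecMul (E a) P) T =
      Matrix.fromBlocks P.transpose 0 0 P.transpose * H68Rg.mat E T := by
    ext x a
    rcases x with i | i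
    · by_cases ha : a ∈ T
      · simp [H68Rg.mat, Matrix.mul_apply, Matrix.vecMul, dotProduct, ha, mul_comm]
      · simp [H68Rg.mat, Matrix.mul_apply, Matrix.vecMul, dotProduct, ha]
    · by_cases ha : a ∈ T
      · simp [H68Rg.mat, Matrix.mul_apply, Matrix.vecMul, dotProduct, ha]
      · simp [H68Rg.mat, Matrix.mul_apply, Matrix.vecMul, dotProduct, ha, mul_comm]
  rw [h, Matrix.det_mul, Matrix.det_fromBlocks_zero₂₁, Matrix.det_transpose]

/-- **Clause (4).** -/
theorem final4 {α : Type*} {r : ℕ} (M : Matroid α)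
    (φ : α → Fin r → ℂ) (hφ : ∀ X ⊆ M.E, M.Indep X ↔ LinearIndepOn ℂ φ X)
    (b b' : Fin r → α) (hb : Function.Injective b) (hb' : Function.Injective b')
    (hB : M.IsBase (Set.range b)) (hB' : M.IsBase (Set.range b'))
    (G : Subgroup ℂˣ) (hneg : -1 ∈ G) (c : ℝ)
    (hC : ∀ g ∈ G, (1 + (g : ℂ) = 0 ∨ ∃ h ∈ G, 1 + (g : ℂ) = (h : ℂˣ)) → ‖(g : ℂ)‖ ≤ c)
    (hG : ∀ x : Fin r → α, Set.range x ⊆ Set.range b ∪ Set.range b' →
      (Matrix.of fun i => φ (x i)).det = 0 ∨
        ∃ g ∈ G, (Matrix.of fun i => φ (x i)).det = (g : ℂˣ)) :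
    ShortSwap M (Set.range b) (Set.range b') (cst c r ^ 2) := by
  classical
  set S : Set ℂ := {z | ∃ g ∈ G, z = ((g : ℂˣ) : ℂ)} with hS
  have hc1 : 1 ≤ c := by
    have := hC (-1) hneg (Or.inl (by simp))
    simpa using this
  have s1 : (1 : ℂ) ∈ S := ⟨1, G.one_mem, by simp⟩
  have smul : ∀ p ∈ S, ∀ q ∈ S, p * q ∈ S := by
    rintro p ⟨g, hg, rfl⟩ q ⟨h, hh, rfl⟩
    exact ⟨g * h, G.mul_mem hg hh, by simp⟩
  have sinv : ∀ p ∈ S, p⁻¹ ∈ S := by
    rintro p ⟨g, hg, rfl⟩
    exact ⟨g⁻¹, G.inv_mem hg, by simp⟩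
  have sneg : ∀ p ∈ S, -p ∈ S := by
    rintro p ⟨g, hg, rfl⟩
    exact ⟨-1 * g, G.mul_mem hneg hg, by simp⟩
  have sC : ∀ p ∈ S, ∀ q ∈ S, (p + q = 0 ∨ p + q ∈ S) → ‖p‖ ≤ c * ‖q‖ := by
    rintro p ⟨g, hg, rfl⟩ q ⟨h, hh, rfl⟩ hpq
    have hq : ((h : ℂˣ) : ℂ) ≠ 0 := h.ne_zero
    have h2 := hC (g * h⁻¹) (G.mul_mem hg (G.inv_mem hh)) (by
      rcases hpq with h3 | ⟨k, hk, h3⟩
      · left
        push_cast
        field_simp
        rw [add_comm, mul_zero]
        exact h3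
      · right
        refine ⟨k * h⁻¹, G.mul_mem hk (G.inv_mem hh), ?_⟩
        push_cast
        rw [← h3]
        field_simp
        ring)
    push_cast at h2
    rw [norm_mul, norm_inv, ← div_eq_mul_inv, div_le_iff₀ (norm_pos_iff.2 hq)] at h2
    exact h2
  have hdS : ∀ x : Fin r → α, Set.range x ⊆ Set.range b ∪ Set.range b' →
      (Matrix.of fun i => φ (x i)).det = 0 ∨ (Matrix.of fun i => φ (x i)).det ∈ S := hG
  -- the matrix of the basis `b`
  set P : Matrix (Fin r) (Fin r) ℂ := Matrix.of fun i => φ (b i) with hP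
  set P' : Matrix (Fin r) (Fin r) ℂ := Matrix.of fun i => φ (b' i) with hP'
  have hPdet : P.det ≠ 0 := norm_ne_zero_iff.1 (absDet_ne_zero hφ hb hB)
  have hPdet' : P'.det ≠ 0 := norm_ne_zero_iff.1 (absDet_ne_zero hφ hb' hB')
  have hPu : IsUnit P.det := isUnit_iff_ne_zero.2 hPdet
  have hPS : P.det ∈ S := (hdS b Set.subset_union_left).resolve_left hPdet
  let A : Matrix (Fin r) (Fin r) ℂ := P' * P⁻¹
  have hAP : A * P = P' := by
    rw [Matrix.mul_assoc, Matrix.nonsing_inv_mul P hPu, Matrix.mul_one]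
  have hAdet : A.det * P.det = P'.det := by rw [← Matrix.det_mul, hAP]
  have hA0 : A.det ≠ 0 := by
    intro h
    rw [h, zero_mul] at hAdet
    exact hPdet' hAdet.symm
  -- coordinates
  have hcoord : ∀ a : Fin r ⊕ Fin r, Matrix.vecMul (vecs A a) P = φ (Sum.elim b b' a) := by
    rintro (j | j)
    · simp only [vecs, Sum.elim_inl]
      rw [Matrix.single_one_vecMul]
      rfl
    · simp only [vecs, Sum.elim_inr]
      have : (A * P) j = P' j := by rw [hAP]
      exact this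
  have H : ∀ (k : ℕ) (f g : Fin k → Fin r), Function.Injective f → Function.Injective g →
      (A.submatrix f g).det = 0 ∨ (A.submatrix f g).det ∈ S := by
    intro k f g _ hg
    obtain ⟨y, hy⟩ := det_minor A f g hg
    have h2 : (Matrix.of fun j => vecs A (y j)) * P =
        Matrix.of fun j => φ (Sum.elim b b' (y j)) := by
      ext i j
      have := congrFun (hcoord (y i)) j
      exact this
    have h3 : (A.submatrix f g).det * P.det =
        (Matrix.of fun j => φ (Sum.elim b b' (y j))).det := by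
      rw [hy, ← Matrix.det_mul, h2]
    have h4 := hdS (fun j => Sum.elim b b' (y j)) (by
      rintro _ ⟨j, rfl⟩
      rcases hyj : y j with i | i
      · exact Or.inl ⟨i, by simp [hyj]⟩
      · exact Or.inr ⟨i, by simp [hyj]⟩)
    have h5 : (A.submatrix f g).det =
        (Matrix.of fun j => φ (Sum.elim b b' (y j))).det * P.det⁻¹ := by
      rw [← h3, mul_assoc, mul_inv_cancel₀ hPdet, mul_one]
    rcases h4 with h6 | h6
    · left
      rw [h5]
      rw [h6, zero_mul]
    · right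
      rw [h5]
      exact smul _ h6 _ (sinv _ hPS)
  refine final1 M φ hφ b b' hb hb' hB hB' fun x y hxy => ?_
  obtain ⟨π, hx, hy⟩ := exists_perm_of_splits hxy
  let T : Finset (Fin r ⊕ Fin r) := univ.image fun i => π (Sum.inl i)
  have hT1 : ∀ i, π (Sum.inl i) ∈ T := fun i => mem_image_of_mem _ (mem_univ i)
  have hT2 : ∀ i, π (Sum.inr i) ∉ T := by
    intro i hi
    obtain ⟨j, _, hj⟩ := mem_image.1 hi
    exact absurd (π.injective hj) (by simp)
  have e1 := norm_det_mat (fun a => φ (Sum.elim b b' a)) T π hT1 hT2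
  have e2 : H68Rg.mat (fun a => φ (Sum.elim b b' a)) T =
      H68Rg.mat (fun a => Matrix.vecMul (vecs A a) P) T := by
    congr 1
    funext a
    exact (hcoord a).symm
  have e3 : absDet φ x * absDet φ y = ‖P.det‖ * ‖P.det‖ * ‖(H68Rg.mat (vecs A) T).det‖ := by
    rw [e2, mat_mul, norm_mul, norm_mul] at e1
    rw [e1]
    unfold absDet
    congr 2
    · congr 1
      ext i j
      simp only [Matrix.of_apply, hx]
    · congr 1
      ext i j
      simp only [Matrix.of_apply, hy]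
  have e4 : absDet φ b * absDet φ b' = ‖P.det‖ * ‖P.det‖ * ‖A.det‖ := by
    change ‖P.det‖ * ‖P'.det‖ = _
    rw [← hAdet, norm_mul]
    ring
  have e5 := ratioC S c hc1 s1 smul sinv sneg sC A H hA0 T
  rw [e3, e4]
  have e6 : ‖P.det‖ * ‖P.det‖ * ‖(H68Rg.mat (vecs A) T).det‖ ≤
      cst c r * (‖P.det‖ * ‖P.det‖ * ‖A.det‖) := by
    calc ‖P.det‖ * ‖P.det‖ * ‖(H68Rg.mat (vecs A) T).det‖ ≤
          ‖P.det‖ * ‖P.det‖ * (cst c r * ‖A.det‖) :=
          mul_le_mul_of_nonneg_left e5 (by positivity)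
      _ = _ := by ring
  calc (‖P.det‖ * ‖P.det‖ * ‖(H68Rg.mat (vecs A) T).det‖) ^ 2 ≤
        (cst c r * (‖P.det‖ * ‖P.det‖ * ‖A.det‖)) ^ 2 :=
        pow_le_pow_left₀ (by positivity) e6 2
    _ = _ := by rw [mul_pow]

end Pool.Agent.H20Sw
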