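import Pool.Agent.H20Sw.Bridge

/-!
# The clause on groups, in the form used by the hand-in
-/

set_option autoImplicit false

namespace Pool.Agent.H20Sw

theorem final_group {α : Type*} {r : ℕ} (M : Matroid α) (φ : α → Fin r → ℂ)
    (hφ : ∀ X ⊆ M.E, M.Indep X ↔ LinearIndepOn ℂ φ X)
    (b b' : Fin r → α) (hb : Function.Injective b) (hb' : Function.Injective b')
    (hB : M.IsBase (Set.range b)) (hB' : M.IsBase (Set.range b'))
    (G : Subgroup ℂˣ) (c : ℝ) (hneg : (-1 : ℂˣ) ∈ G)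
    (hC : ∀ g ∈ G, (1 + (g : ℂ) = 0 ∨ ∃ h ∈ G, (h : ℂ) = 1 + g) → ‖(g : ℂ)‖ ≤ c)
    (hD : ∀ x : Fin r → α, Set.range x ⊆ Set.range b ∪ Set.range b' →
      ((Matrix.of fun i => φ (x i)).det = 0 ∨
        ∃ h ∈ G, (h : ℂ) = (Matrix.of fun i => φ (x i)).det)) :
    H47PS.ShortSwap M (Set.range b) (Set.range b')
      ((∏ k ∈ Finset.range (r + 1), (c ^ k * (k.factorial : ℝ))) ^ 2) :=
  final4 M φ hφ b b' hb hb' hB hB' G hneg c
    (fun g hg h => hC g hg (h.imp id fun ⟨k, hk, e⟩ => ⟨k, hk, e.symm⟩))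
    (fun x hx => (hD x hx).imp id fun ⟨k, hk, e⟩ => ⟨k, hk, e.symm⟩)

end Pool.Agent.H20Sw
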