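import Pool.Agent.H68Rg.OfRG

/-!
# Products of complementary minors and the Leibniz formula
-/

set_option autoImplicit false

namespace Pool.Agent.H20Sw

open Finset

variable {r : ℕ} {K : Type*} [Field K]

/-- The unit vectors and the rows of `A`. -/
def vecs (A : Matrix (Fin r) (Fin r) K) : Fin r ⊕ Fin r → Fin r → K :=
  Sum.elim (fun j => Pi.single j 1) (fun i => A i)

/-- The masked matrix. -/
def mask (A : Matrix (Fin r) (Fin r) K) (T : Finset (Fin r ⊕ Fin r)) : Matrix (Fin r) (Fin r) K :=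
  Matrix.of fun i l => if (Sum.inl l ∉ T ↔ Sum.inr i ∈ T) then A i l else 0

/-- Exchange of the rows. -/
def fl (T : Finset (Fin r ⊕ Fin r)) : Fin r ⊕ Fin r → Fin r ⊕ Fin r
  | Sum.inl j => if Sum.inl j ∈ T then Sum.inl j else Sum.inr j
  | Sum.inr j => if Sum.inl j ∈ T then Sum.inr j else Sum.inl j

theorem fl_invol (T : Finset (Fin r ⊕ Fin r)) : Function.Involutive (fl T) := by
  intro x
  rcases x with j | j
  · by_cases h : (Sum.inl j : Fin r ⊕ Fin r) ∈ T <;> simp [fl, h]
  · by_cases h : (Sum.inl j : Fin r ⊕ Fin r) ∈ T <;> simp [fl, h]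

/-- The determinant is, up to sign, the determinant of the masked matrix. -/
theorem det_mat (A : Matrix (Fin r) (Fin r) K) (T : Finset (Fin r ⊕ Fin r)) :
    (H68Rg.mat (vecs A) T).det = (mask A T).det ∨
      (H68Rg.mat (vecs A) T).det = -(mask A T).det := by
  have h1 : (H68Rg.mat (vecs A) T).submatrix ((fl_invol T).toPerm (fl T)) id =
      Matrix.fromBlocks 1 (Matrix.of fun j i => if (Sum.inl j ∈ T ↔ Sum.inr i ∈ T) then A i j else 0)
        0 (mask A T).transpose := by
    ext x y
    rcases x with j | j <;> rcases y with i | i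
    · by_cases h : (Sum.inl j : Fin r ⊕ Fin r) ∈ T
      · rcases eq_or_ne i j with rfl | hij
        · simp [H68Rg.mat, vecs, fl, h]
        · simp [H68Rg.mat, vecs, fl, h, hij, hij.symm, Matrix.one_apply]
      · rcases eq_or_ne i j with rfl | hij
        · simp [H68Rg.mat, vecs, fl, h]
        · simp [H68Rg.mat, vecs, fl, h, hij, hij.symm, Matrix.one_apply]
    · by_cases h : (Sum.inl j : Fin r ⊕ Fin r) ∈ T <;>
        by_cases h' : (Sum.inr i : Fin r ⊕ Fin r) ∈ T <;>
          simp [H68Rg.mat, vecs, fl, h, h']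
    · by_cases h : (Sum.inl j : Fin r ⊕ Fin r) ∈ T
      · rcases eq_or_ne i j with rfl | hij
        · simp [H68Rg.mat, vecs, fl, h]
        · simp [H68Rg.mat, vecs, fl, h, hij, hij.symm]
      · rcases eq_or_ne i j with rfl | hij
        · simp [H68Rg.mat, vecs, fl, h]
        · simp [H68Rg.mat, vecs, fl, h, hij, hij.symm]
    · by_cases h : (Sum.inl j : Fin r ⊕ Fin r) ∈ T <;>
        by_cases h' : (Sum.inr i : Fin r ⊕ Fin r) ∈ T <;>
          simp [H68Rg.mat, vecs, fl, mask, h, h']
  have h2 := Matrix.det_permute ((fl_invol T).toPerm (fl T)) (H68Rg.mat (vecs A) T)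
  rw [h1, Matrix.det_fromBlocks_zero₂₁, Matrix.det_one, one_mul, Matrix.det_transpose] at h2
  rcases Int.units_eq_one_or (Equiv.Perm.sign ((fl_invol T).toPerm (fl T))) with h3 | h3
  · left
    rw [h2, h3]
    simp
  · right
    rw [h2, h3]
    simp

theorem mask_first (A : Matrix (Fin r) (Fin r) K) :
    mask A (univ.map ⟨Sum.inl, Sum.inl_injective⟩) = A := by
  ext i l
  simp [mask]

/-- Leibniz bound. -/
theorem leib (A : Matrix (Fin r) (Fin r) K) (v : AbsoluteValue K ℝ) (C : ℝ) (hC0 : 0 ≤ C)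
    (hC : ∀ σ : Equiv.Perm (Fin r), (∀ i, A i (σ i) ≠ 0) → ∏ i, v (A i (σ i)) ≤ C)
    (T : Finset (Fin r ⊕ Fin r)) : v (H68Rg.mat (vecs A) T).det ≤ r.factorial * C := by
  have h1 : v (H68Rg.mat (vecs A) T).det = v (mask A T).det := by
    rcases det_mat A T with h | h
    · rw [h]
    · rw [h, AbsoluteValue.map_neg]
  rw [h1, ← Matrix.det_transpose, Matrix.det_apply]
  refine (v.sum_le _ _).trans ?_
  have h2 : ∀ σ ∈ (univ : Finset (Equiv.Perm (Fin r))),
      v (Equiv.Perm.sign σ • ∏ i, (mask A T).transpose (σ i) i) ≤ C := by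
    intro σ _
    have h3 : v (Equiv.Perm.sign σ • ∏ i, (mask A T).transpose (σ i) i) =
        ∏ i, v (mask A T i (σ i)) := by
      rcases Int.units_eq_one_or (Equiv.Perm.sign σ) with h | h
      · rw [h, one_smul, map_prod]
        rfl
      · rw [h, Units.neg_smul, one_smul, AbsoluteValue.map_neg, map_prod]
        rfl
    rw [h3]
    by_cases h4 : ∀ i, mask A T i (σ i) ≠ 0
    · have h5 : ∀ i, mask A T i (σ i) = A i (σ i) := by
        intro i
        have := h4 i
        simp only [mask, Matrix.of_apply] at this ⊢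
        split_ifs at this ⊢ with h6
        · rfl
        · exact absurd rfl this
      rw [Finset.prod_congr rfl fun i _ => by rw [h5 i]]
      exact hC σ fun i => by rw [← h5 i]; exact h4 i
    · push Not at h4
      obtain ⟨i, hi⟩ := h4
      rw [Finset.prod_eq_zero (mem_univ i) (by rw [hi, map_zero])]
      exact hC0
  refine (Finset.sum_le_card_nsmul _ _ _ h2).trans ?_
  rw [Finset.card_univ, Fintype.card_perm, Fintype.card_fin, nsmul_eq_mul]

/-- A nonzero term. -/
theorem exists_term (A : Matrix (Fin r) (Fin r) K) (h : A.det ≠ 0) :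
    ∃ σ : Equiv.Perm (Fin r), ∀ i, A i (σ i) ≠ 0 := by
  by_contra hcon
  push Not at hcon
  apply h
  rw [← Matrix.det_transpose, Matrix.det_apply]
  refine Finset.sum_eq_zero fun σ _ => ?_
  obtain ⟨i, hi⟩ := hcon σ
  have h1 : ∏ i, A.transpose (σ i) i = 0 := Finset.prod_eq_zero (mem_univ i) hi
  rw [h1, smul_zero]

/-- The minors of `A` are determinants of rows `vecs A`. -/
theorem det_minor (A : Matrix (Fin r) (Fin r) K) {k : ℕ} (f g : Fin k → Fin r)
    (hg : Function.Injective g) : ∃ y : Fin r → Fin r ⊕ Fin r,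
    (A.submatrix f g).det = (Matrix.of fun j => vecs A (y j)).det := by
  classical
  let y : Fin r → Fin r ⊕ Fin r := fun j =>
    if h : ∃ t, g t = j then Sum.inr (f h.choose) else Sum.inl j
  have hy1 : ∀ t, y (g t) = Sum.inr (f t) := by
    intro t
    have h : ∃ t', g t' = g t := ⟨t, rfl⟩
    have h2 : h.choose = t := hg h.choose_spec
    simp only [y]
    rw [dif_pos h, h2]
  have hy2 : ∀ j, (¬ ∃ t, g t = j) → y j = Sum.inl j := fun j h => dif_neg h
  refine ⟨y, ?_⟩
  set P : Matrix (Fin r) (Fin r) K := Matrix.of fun j => vecs A (y j) with hP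
  have h1 := Matrix.twoBlockTriangular_det P (fun j => ∃ t, g t = j) (by
    intro i hi j hj
    change vecs A (y i) j = 0
    rw [hy2 i hi]
    have hij : j ≠ i := fun h => hi (h ▸ hj)
    simp [vecs, hij])
  have h2 : (P.toSquareBlockProp fun i => ¬ ∃ t, g t = i).det = 1 := by
    have : (P.toSquareBlockProp fun i => ¬ ∃ t, g t = i) = 1 := by
      ext ⟨i, hi⟩ ⟨j, hj⟩
      change vecs A (y i) j = _
      rw [hy2 i hi]
      rcases eq_or_ne j i with rfl | hij
      · simp [vecs]
      · have : (⟨i, hi⟩ : {i // ¬ ∃ t, g t = i}) ≠ ⟨j, hj⟩ := fun h => hij (congrArg Subtype.val h).symm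
        rw [Matrix.one_apply_ne this]
        simp [vecs, hij]
    rw [this, Matrix.det_one]
  let e : Fin k ≃ {j // ∃ t, g t = j} :=
    Equiv.ofBijective (fun t => ⟨g t, t, rfl⟩)
      ⟨fun a b h => hg (congrArg Subtype.val h), fun ⟨j, t, ht⟩ => ⟨t, Subtype.ext ht⟩⟩
  have h3 : (P.toSquareBlockProp fun j => ∃ t, g t = j).det = (A.submatrix f g).det := by
    rw [← Matrix.det_submatrix_equiv_self e]
    congr 1
    ext a b
    change vecs A (y (g a)) (g b) = A (f a) (g b)
    rw [hy1]
    rfl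
  rw [h2, mul_one, h3] at h1
  exact h1.symm

end Pool.Agent.H20Sw
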